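import Pool.Agent.Lib_MP_6d359a_lc.Main

/-!
MP_6d359a_lc, Q1 (answer: yes, in ZFC).  The finite subsets of the space of all ultrafilters on the
naturals, ordered by inclusion, embed into the weak P-points, for the Rudin-Keisler preorder and for
every relation between it and the Comfort preorder.
-/

namespace Pool.Agent.Results.MP_6d359a_lc.WeakPEmbedding

open Pool.Agent.Lib_MP_6d359a_lc

theorem result : ∃ e : {X : Set (Ultrafilter ℕ) // X.Finite} → Ultrafilter ℕ,
    (∀ X, WeakPPoint (e X)) ∧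
    (∀ X Y, X.1 ⊆ Y.1 ↔ RKle (e X) (e Y)) ∧
    ∀ R : Ultrafilter ℕ → Ultrafilter ℕ → Prop, (∀ u v, RKle u v → R u v) →
      (∀ u v, R u v → Cle u v) → ∀ X Y, X.1 ⊆ Y.1 ↔ R (e X) (e Y) :=
  main

end Pool.Agent.Results.MP_6d359a_lc.WeakPEmbedding
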